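import Pool.Agent.Run7.h677.PS.Stm

/-!
# K2: the neighbour of a Freudenthal simplex across a facet
-/

set_option autoImplicit false

namespace Pool.Agent.Run7.h677.PS
open Finset

namespace K2

/-- the pairs (simplex, omitted vertex) -/
abbrev Pr (n : ℕ) := ((Fin (n + 1) → ℤ) × Equiv.Perm (Fin (n + 1))) × Fin (n + 1 + 1)

/-- the neighbour across the facet -/
noncomputable def nbr (n : ℕ) (x : Pr n) : Pr n :=
  if h0 : x.2 = 0 then
    ((x.1.1 + Pi.single (x.1.2 0) 1, x.1.2 * finRotate (n + 1)), Fin.last (n + 1))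
  else if hl : x.2 = Fin.last (n + 1) then
    ((x.1.1 - Pi.single (x.1.2 (Fin.last n)) 1, x.1.2 * (finRotate (n + 1))⁻¹), 0)
  else ((x.1.1, x.1.2 * Equiv.swap (x.2.pred h0) (x.2.castPred hl)), x.2)

lemma nbr_zero {n : ℕ} (a : Fin (n + 1) → ℤ) (π : Equiv.Perm (Fin (n + 1))) :
    nbr n ((a, π), 0) = ((a + Pi.single (π 0) 1, π * finRotate (n + 1)), Fin.last (n + 1)) := by
  simp [nbr]

lemma nbr_last {n : ℕ} (a : Fin (n + 1) → ℤ) (π : Equiv.Perm (Fin (n + 1))) :
    nbr n ((a, π), Fin.last (n + 1)) =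
      ((a - Pi.single (π (Fin.last n)) 1, π * (finRotate (n + 1))⁻¹), 0) := by
  have h : (Fin.last (n + 1) : Fin (n + 1 + 1)) ≠ 0 := Fin.last_pos.ne'
  simp [nbr, h]

lemma nbr_mid {n : ℕ} (a : Fin (n + 1) → ℤ) (π : Equiv.Perm (Fin (n + 1))) (j : Fin (n + 1 + 1))
    (h0 : j ≠ 0) (hl : j ≠ Fin.last (n + 1)) :
    nbr n ((a, π), j) = ((a, π * Equiv.swap (j.pred h0) (j.castPred hl)), j) := by
  simp [nbr, h0, hl]

/-- the facet -/
noncomputable def fac {n : ℕ} (x : Pr n) : Finset (Fin (n + 1) → ℤ) :=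
  (ks x.1.1 x.1.2).erase (kv x.1.1 x.1.2 x.2)

lemma fac_eq (hK : S_K1) {n : ℕ} (a : Fin (n + 1) → ℤ) (π : Equiv.Perm (Fin (n + 1)))
    (j : Fin (n + 1 + 1)) : fac ((a, π), j) = (univ.erase j).image (kv a π) := by
  rw [Finset.image_erase (hK _ a π).1]
  rfl

/-- the symmetric relation between neighbours -/
def Rel {n : ℕ} (x y : Pr n) : Prop :=
  fac y = fac x ∧ ∀ i, y.1.1 i ≠ x.1.1 i → |y.1.1 i - x.1.1 i| ≤ 1 ∧
    ∀ v ∈ fac x, v i = max (y.1.1 i) (x.1.1 i)

lemma Rel.symm {n : ℕ} {x y : Pr n} (h : Rel x y) : Rel y x := by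
  refine ⟨h.1.symm, fun i hi => ?_⟩
  obtain ⟨h1, h2⟩ := h.2 i hi.symm
  refine ⟨by rwa [abs_sub_comm] , fun v hv => ?_⟩
  rw [max_comm]
  exact h2 v (h.1 ▸ hv)

lemma kv_castSucc {n : ℕ} (a : Fin (n + 1) → ℤ) (π : Equiv.Perm (Fin (n + 1))) (l : Fin (n + 1)) :
    kv (a + Pi.single (π 0) 1) (π * finRotate (n + 1)) l.castSucc = kv a π l.succ := by
  funext i
  obtain ⟨p, rfl⟩ := π.surjective i
  have h1 : (π * finRotate (n + 1)).symm (π p) = (finRotate (n + 1)).symm p := by
    rw [Equiv.symm_apply_eq]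
    simp
  simp only [kv, h1, Equiv.symm_apply_apply, Pi.add_apply, Pi.single_apply, Fin.val_castSucc,
    Fin.val_succ, EmbeddingLike.apply_eq_iff_eq]
  obtain ⟨q, rfl⟩ := (finRotate (n + 1)).surjective p
  rw [Equiv.symm_apply_apply]
  by_cases hq : q = Fin.last n
  · subst hq
    rw [finRotate_last]
    have := l.is_lt
    have h2 : ¬ ((Fin.last n : Fin (n + 1)) : ℕ) < l := by
      rw [Fin.val_last]
      omega
    rw [if_neg h2]
    simp
  · have h2 := coe_finRotate_of_ne_last hq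
    have h3 : finRotate (n + 1) q ≠ 0 := by
      intro h
      rw [h] at h2
      simp at h2
    rw [if_neg h3, h2]
    simp

lemma rel_zero (hK : S_K1) {n : ℕ} (a : Fin (n + 1) → ℤ) (π : Equiv.Perm (Fin (n + 1))) :
    Rel ((a, π), 0) (nbr n ((a, π), 0)) := by
  rw [nbr_zero]
  constructor
  · rw [fac_eq hK, fac_eq hK]
    have h1 : (univ.erase (Fin.last (n + 1)) : Finset (Fin (n + 1 + 1))) =
        univ.image Fin.castSucc := by
      ext l
      simp only [mem_erase, mem_univ, and_true, mem_image, true_and]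
      constructor
      · intro h
        exact ⟨l.castPred h, Fin.castSucc_castPred l h⟩
      · rintro ⟨m, rfl⟩
        exact (Fin.castSucc_lt_last m).ne
    have h2 : (univ.erase (0 : Fin (n + 1 + 1)) : Finset (Fin (n + 1 + 1))) =
        univ.image Fin.succ := by
      ext l
      simp only [mem_erase, mem_univ, and_true, mem_image, true_and]
      constructor
      · intro h
        exact ⟨l.pred h, Fin.succ_pred l h⟩
      · rintro ⟨m, rfl⟩
        exact Fin.succ_ne_zero m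
    rw [h1, h2, image_image, image_image]
    apply image_congr
    intro l _
    exact kv_castSucc a π l
  · intro i hi
    have hi' : i = π 0 := by
      by_contra h
      apply hi
      simp [h]
    subst hi'
    refine ⟨by simp, fun v hv => ?_⟩
    rw [fac_eq hK, mem_image] at hv
    obtain ⟨l, hl, rfl⟩ := hv
    have hl0 : l ≠ 0 := (mem_erase.mp hl).1
    have hl1 : 0 < (l : ℕ) := Nat.pos_of_ne_zero fun h => hl0 (Fin.ext h)
    simp [kv, hl1]

lemma rel_mid (hK : S_K1) {n : ℕ} (a : Fin (n + 1) → ℤ) (π : Equiv.Perm (Fin (n + 1)))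
    (j : Fin (n + 1 + 1)) (h0 : j ≠ 0) (hl : j ≠ Fin.last (n + 1)) :
    Rel ((a, π), j) (nbr n ((a, π), j)) := by
  rw [nbr_mid a π j h0 hl]
  constructor
  · rw [fac_eq hK, fac_eq hK]
    apply image_congr
    intro l hlj
    have hlj' : l ≠ j := (mem_erase.mp (mem_coe.mp hlj)).1
    have hlj2 : (l : ℕ) ≠ j := fun h => hlj' (Fin.ext h)
    have hj0 : (j : ℕ) ≠ 0 := fun h => h0 (Fin.ext h)
    funext i
    obtain ⟨p, rfl⟩ := π.surjective i
    have h1 : (π * Equiv.swap (j.pred h0) (j.castPred hl)).symm (π p) =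
        Equiv.swap (j.pred h0) (j.castPred hl) p := by
      rw [Equiv.symm_apply_eq]
      simp
    simp only [kv, h1, Equiv.symm_apply_apply]
    congr 2
    rw [eq_iff_iff]
    have hp1 : ((j.pred h0 : Fin (n + 1)) : ℕ) = (j : ℕ) - 1 := by simp
    have hp2 : ((j.castPred hl : Fin (n + 1)) : ℕ) = (j : ℕ) := by simp
    by_cases e1 : p = j.pred h0
    · rw [e1, Equiv.swap_apply_left, hp1, hp2]
      omega
    · by_cases e2 : p = j.castPred hl
      · rw [e2, Equiv.swap_apply_right, hp1, hp2]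
        omega
      · rw [Equiv.swap_apply_of_ne_of_ne e1 e2]
  · intro i hi
    exact absurd rfl hi

lemma nbr_nbr {n : ℕ} (x : Pr n) : nbr n (nbr n x) = x := by
  obtain ⟨⟨a, π⟩, j⟩ := x
  by_cases h0 : j = 0
  · subst h0
    rw [nbr_zero, nbr_last]
    simp [mul_assoc]
  · by_cases hl : j = Fin.last (n + 1)
    · subst hl
      rw [nbr_last, nbr_zero]
      have h1 : (π * (finRotate (n + 1))⁻¹) 0 = π (Fin.last n) := by
        have h2 : (finRotate (n + 1))⁻¹ 0 = Fin.last n := by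
          rw [Equiv.Perm.inv_eq_iff_eq, finRotate_last]
        rw [Equiv.Perm.mul_apply, h2]
      rw [h1, mul_assoc, inv_mul_cancel, mul_one, sub_add_cancel]
    · rw [nbr_mid a π j h0 hl, nbr_mid _ _ j h0 hl]
      simp [mul_assoc]

lemma rel (hK : S_K1) {n : ℕ} (x : Pr n) : Rel x (nbr n x) := by
  obtain ⟨⟨a, π⟩, j⟩ := x
  by_cases h0 : j = 0
  · subst h0
    exact rel_zero hK a π
  · by_cases hl : j = Fin.last (n + 1)
    · subst hl
      have h := nbr_nbr ((a, π), Fin.last (n + 1))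
      rw [nbr_last] at h ⊢
      have h2 := rel_zero hK (a - Pi.single (π (Fin.last n)) 1) (π * (finRotate (n + 1))⁻¹)
      rw [h] at h2
      exact h2.symm
    · exact rel_mid hK a π j h0 hl

lemma nbr_ne {n : ℕ} (x : Pr n) : nbr n x ≠ x := by
  obtain ⟨⟨a, π⟩, j⟩ := x
  by_cases h0 : j = 0
  · subst h0
    rw [nbr_zero]
    intro h
    exact (Fin.last_pos (n := n)).ne' (congrArg Prod.snd h)
  · by_cases hl : j = Fin.last (n + 1)
    · subst hl
      rw [nbr_last]
      intro h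
      exact (Fin.last_pos (n := n)).ne (congrArg Prod.snd h)
    · rw [nbr_mid a π j h0 hl]
      intro h
      have h1 : π * Equiv.swap (j.pred h0) (j.castPred hl) = π :=
        congrArg (fun x : Pr n => x.1.2) h
      rw [mul_eq_left, Equiv.swap_eq_one_iff] at h1
      have h2 := congrArg (fun i : Fin (n + 1) => (i : ℕ)) h1
      simp only [Fin.val_pred, Fin.coe_castPred] at h2
      have hj0 : (j : ℕ) ≠ 0 := fun h => h0 (Fin.ext h)
      omega

end K2

theorem t_K2 : S_K1 → S_K2 := by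
  intro hK d hd
  obtain ⟨n, rfl⟩ : ∃ n, d = n + 1 := ⟨d - 1, by omega⟩
  refine ⟨K2.nbr n, fun x => ⟨K2.nbr_nbr x, K2.nbr_ne x, (K2.rel hK x).1, fun i hi => ?_⟩⟩
  exact (K2.rel hK x).2 i hi

end Pool.Agent.Run7.h677.PS
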